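import Pool.Agent.Run7.h385.CW.Uni

set_option autoImplicit false

/-! All lengths at once. -/

namespace Pool.Agent.Run7.h385.CW

open Finset
open Pool.Agent.H373R2.T7
open Pool.Agent.H807R2.Dav
open Pool.Agent.Run7.h385.PO
open Pool.Agent.Run7.h871.PO

lemma Q_abs {g d : ℕ} (F : Fin g → ℕ → ℤ) (T : Fin g → Finset ℕ) (c : Fin g → Fin d → ℤ) (n : ℕ) :
    |Q F T c n| ≤ 1 := by
  unfold Q
  rw [abs_prod]
  exact prod_le_one (fun _ _ => abs_nonneg _) (fun _ _ => prod_lam_abs _ _)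

/-- **All lengths.** -/
theorem allx (d g C1 K A : ℕ) (hd : 2 ≤ d) : ∃ B : ℕ, ∀ C V : ℕ, ∃ X0 : ℕ, ∀ X : ℕ, X0 ≤ X →
    ∀ F : Fin g → ℕ → ℤ, (∀ l, ∀ n : ℕ, (n : ℝ) ≤ Real.log X ^ C → |(F l n : ℝ)| ≤ X * Real.log X ^ V) →
    ∀ Y : Fin g → Fin d → ℕ, (∀ l j, (X : ℝ) / Real.log X ^ V ≤ Y l j ∧ (Y l j : ℝ) ≤ X) →
    ∀ (ι : Type) (N' : Finset ι), (N'.card : ℝ) ≤ Real.log X ^ K → ∀ (w : ι → ℕ → ℝ),
    (∀ s n, |w s n| ≤ 1) →
    ∃ Ex ⊆ Fintype.piFinset (fun l => box (Y l)), (Ex.card : ℝ) ≤ (∏ l, ∏ j, (Y l j : ℝ)) / Real.log X ^ A ∧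
      ∀ c ∈ Fintype.piFinset (fun l => box (Y l)), c ∉ Ex → ∀ T : Fin g → Finset ℕ, (∃ l, (T l).Nonempty) →
        (∀ l, (T l).card + 1 ≤ d) → (∀ l, ∀ h ∈ T l, (h : ℝ) ≤ Real.log X ^ C1) → ∀ s ∈ N',
        ∀ x : ℕ, Real.log X ^ B ≤ x → (x : ℝ) + Real.log X ^ C1 ≤ Real.log X ^ C →
        |∑ n ∈ Icc 1 x, w s n * Q F T c n| ≤ x / Real.log X ^ A := by
  classical
  obtain ⟨B0, hB0⟩ := main d g C1 (K + A + 5) (A + 1) hd
  refine ⟨B0 + A + 2, fun C V => ?_⟩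
  obtain ⟨X1, hX1⟩ := hB0 C V
  obtain ⟨X2, hX2⟩ := ev_L' (max (2 * (C : ℝ)) 8)
  refine ⟨max X1 X2, fun X hX F hF Y hY ι N' hN' w hw => ?_⟩
  have hM := hX1 X (le_trans (le_max_left _ _) hX)
  have hLb := hX2 X (le_trans (le_max_right _ _) hX)
  set L : ℝ := Real.log X with hL
  have hLC : 2 * (C : ℝ) ≤ L := (le_max_left _ _).trans hLb
  have hL8 : (8 : ℝ) ≤ L := (le_max_right _ _).trans hLb
  have hL1 : 1 ≤ L := by linarith
  have hL0 : 0 < L := by linarith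
  set D : ℕ := ⌈L ^ (A + 1)⌉₊ with hD
  have hDl : L ^ (A + 1) ≤ D := Nat.le_ceil _
  have hDu : (D : ℝ) ≤ L ^ (A + 1) + 1 := (Nat.ceil_lt_add_one (by positivity)).le
  have hD0 : 0 < D := by
    rw [hD]
    exact Nat.ceil_pos.2 (by positivity)
  have hLA1 : 1 ≤ L ^ (A + 1) := one_le_pow₀ hL1
  set R1 : ℕ := ⌊L ^ 2⌋₊ + 1 with hR1
  set S0 : Finset (ι × ℕ × ℕ) := (N' ×ˢ (range R1 ×ˢ range (2 * D + 1))).filter
    (fun q => L ^ B0 ≤ ((q.2.2 * 2 ^ q.2.1 : ℕ) : ℝ) ∧ ((q.2.2 * 2 ^ q.2.1 : ℕ) : ℝ) + L ^ C1 ≤ L ^ C) with hS0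
  have hS0c : (S0.card : ℝ) ≤ L ^ (K + A + 5) := by
    have h1 : S0.card ≤ N'.card * (R1 * (2 * D + 1)) := by
      refine (card_filter_le _ _).trans ?_
      rw [card_product, card_product, card_range, card_range]
    have h2 : (S0.card : ℝ) ≤ N'.card * (R1 * (2 * D + 1)) := by exact_mod_cast h1
    have h3 : (R1 : ℝ) ≤ L ^ 3 := by
      have h4 : ((⌊L ^ 2⌋₊ : ℕ) : ℝ) ≤ L ^ 2 := Nat.floor_le (by positivity)
      rw [hR1]
      push_cast
      have h5 : L ^ 3 = L * L ^ 2 := by ring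
      have h6 : 1 ≤ L ^ 2 := one_le_pow₀ hL1
      rw [h5]
      nlinarith
    have h4 : 2 * (D : ℝ) + 1 ≤ L ^ (A + 2) := by
      rw [pow_succ]
      nlinarith
    calc (S0.card : ℝ) ≤ N'.card * (R1 * (2 * D + 1)) := h2
      _ ≤ L ^ K * (L ^ 3 * L ^ (A + 2)) := by
          apply mul_le_mul hN' _ (by positivity) (by positivity)
          exact mul_le_mul h3 h4 (by positivity) (by positivity)
      _ = L ^ (K + A + 5) := by rw [← pow_add, ← pow_add]; congr 1; ring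
  obtain ⟨Ex, hEx1, hEx2, hEx3⟩ := hM F hF Y hY (ι × ℕ × ℕ) S0 hS0c (fun q => Icc 1 (q.2.2 * 2 ^ q.2.1))
    (fun q => w q.1) (by
      intro q hq
      rw [hS0, mem_filter] at hq
      obtain ⟨-, h1, h2⟩ := hq
      refine ⟨?_, fun n hn => ?_⟩
      · rw [Nat.card_Icc, Nat.add_sub_cancel]
        exact h1
      · have h3 : (n : ℝ) ≤ ((q.2.2 * 2 ^ q.2.1 : ℕ) : ℝ) := by exact_mod_cast (mem_Icc.1 hn).2
        linarith) (fun q n => hw _ _)
  have hP0 : (0 : ℝ) ≤ ∏ l, ∏ j, (Y l j : ℝ) := by positivity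
  refine ⟨Ex, hEx1, hEx2.trans ?_, fun c hc hcE T hT hTl hTh s hs x hx1 hx2 => ?_⟩
  · apply div_le_div_of_nonneg_left hP0 (by positivity)
    exact pow_le_pow_right₀ hL1 (by omega)
  -- the grid
  have hx0 : (0 : ℝ) < x := lt_of_lt_of_le (by positivity) hx1
  have hDx : D ≤ x := by
    have h1 : (D : ℝ) ≤ L ^ (B0 + A + 2) := by
      have h2 : L ^ (A + 1) * L ≤ L ^ (B0 + A + 2) := by
        rw [← pow_succ]
        exact pow_le_pow_right₀ hL1 (by omega)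
      have h3 : L ^ (A + 1) + 1 ≤ L ^ (A + 1) * L := by nlinarith
      linarith
    exact_mod_cast h1.trans hx1
  set y : ℕ := x / D with hy
  have hy1 : 1 ≤ y := Nat.div_pos hDx hD0
  set i : ℕ := Nat.log 2 y with hi
  have hi1 : 2 ^ i ≤ y := Nat.pow_log_le_self 2 (by omega)
  have hi2 : y < 2 ^ (i + 1) := Nat.lt_pow_succ_log_self (by norm_num) y
  set j : ℕ := x / 2 ^ i with hj
  have hp0 : 0 < 2 ^ i := by positivity
  have hz1 : j * 2 ^ i ≤ x := Nat.div_mul_le_self x (2 ^ i)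
  have hz2 : x < j * 2 ^ i + 2 ^ i := by
    have := Nat.lt_div_mul_add (a := x) (b := 2 ^ i) hp0
    exact this
  have hjD : j < 2 * D := by
    rw [hj, Nat.div_lt_iff_lt_mul hp0]
    have h1 : x < 2 ^ (i + 1) * D := (Nat.div_lt_iff_lt_mul hD0).1 hi2
    rw [pow_succ] at h1
    nlinarith
  have hyx : y * D ≤ x := Nat.div_mul_le_self x D
  have hgap : ((2 ^ i : ℕ) : ℝ) ≤ x / L ^ (A + 1) := by
    rw [le_div_iff₀ (by positivity)]
    have h1 : ((2 ^ i : ℕ) : ℝ) * D ≤ x := by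
      have : 2 ^ i * D ≤ x := (Nat.mul_le_mul_right D hi1).trans hyx
      exact_mod_cast this
    refine le_trans ?_ h1
    exact mul_le_mul_of_nonneg_left hDl (by positivity)
  have hzx : (x : ℝ) / 2 ≤ ((j * 2 ^ i : ℕ) : ℝ) := by
    have h1 : (x : ℝ) ≤ ((j * 2 ^ i : ℕ) : ℝ) + ((2 ^ i : ℕ) : ℝ) := by exact_mod_cast hz2.le
    have h2 : (x : ℝ) / L ^ (A + 1) ≤ x / 2 := by
      apply div_le_div_of_nonneg_left hx0.le (by norm_num)
      have : L ≤ L ^ (A + 1) := le_self_pow₀ hL1 (by omega)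
      linarith
    linarith
  have hz1r : ((j * 2 ^ i : ℕ) : ℝ) ≤ x := by exact_mod_cast hz1
  have hiR : i < R1 := by
    have h1 : ((2 ^ i : ℕ) : ℝ) ≤ L ^ C := by
      have h2 : ((2 ^ i : ℕ) : ℝ) ≤ x := by
        have : 2 ^ i ≤ x := hi1.trans (Nat.div_le_self _ _)
        exact_mod_cast this
      have h3 : (0 : ℝ) ≤ L ^ C1 := by positivity
      linarith
    have h2 : Real.log ((2 ^ i : ℕ) : ℝ) ≤ Real.log (L ^ C) := Real.log_le_log (by positivity) h1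
    push_cast at h2
    rw [Real.log_pow, Real.log_pow] at h2
    have h3 : Real.log L ≤ L := (Real.log_le_sub_one_of_pos hL0).trans (by linarith)
    have h4 : (1 : ℝ) / 2 ≤ Real.log 2 := by linarith [Real.log_two_gt_d9]
    have h5 : (i : ℝ) ≤ L ^ 2 := by
      have h6 : (i : ℝ) * (1 / 2) ≤ i * Real.log 2 := mul_le_mul_of_nonneg_left h4 (Nat.cast_nonneg _)
      have h7 : (C : ℝ) * Real.log L ≤ C * L := mul_le_mul_of_nonneg_left h3 (Nat.cast_nonneg _)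
      nlinarith
    rw [hR1]
    exact Nat.lt_succ_of_le (Nat.le_floor h5)
  have hmem : (s, i, j) ∈ S0 := by
    rw [hS0, mem_filter, mem_product, mem_product, mem_range, mem_range]
    refine ⟨⟨hs, hiR, by simp only; omega⟩, ?_, ?_⟩
    · simp only
      have h1 : 2 * L ^ B0 ≤ L ^ (B0 + A + 2) := by
        have h2 : L ^ (B0 + 1) ≤ L ^ (B0 + A + 2) := pow_le_pow_right₀ hL1 (by omega)
        have h3 : 2 * L ^ B0 ≤ L ^ (B0 + 1) := by
          rw [pow_succ]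
          have : 0 < L ^ B0 := by positivity
          nlinarith
        linarith
      linarith
    · simp only
      linarith
  have hfin := hEx3 c hc hcE T hT hTl hTh (s, i, j) hmem
  simp only [Nat.card_Icc, Nat.add_sub_cancel] at hfin
  have hsplit : Icc 1 x = Icc 1 (j * 2 ^ i) ∪ Ioc (j * 2 ^ i) x := by
    ext n
    simp only [mem_Icc, mem_union, mem_Ioc]
    omega
  have hdis : Disjoint (Icc 1 (j * 2 ^ i)) (Ioc (j * 2 ^ i) x) := by
    rw [disjoint_left]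
    intro n hn hn'
    rw [mem_Icc] at hn
    rw [mem_Ioc] at hn'
    omega
  rw [hsplit, sum_union hdis]
  have hrest : |∑ n ∈ Ioc (j * 2 ^ i) x, w s n * Q F T c n| ≤ x / L ^ (A + 1) := by
    refine (abs_sum_le_sum_abs _ _).trans ?_
    refine (sum_le_sum (g := fun _ => (1 : ℝ)) fun n _ => ?_).trans ?_
    · rw [abs_mul]
      exact mul_le_one₀ (hw s n) (abs_nonneg _) (Q_abs F T c n)
    · rw [sum_const, nsmul_eq_mul, mul_one, Nat.card_Ioc]
      refine le_trans ?_ hgap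
      have : x - j * 2 ^ i ≤ 2 ^ i := by omega
      exact_mod_cast this
  have h9 : ((j * 2 ^ i : ℕ) : ℝ) / L ^ (A + 1) ≤ x / L ^ (A + 1) := div_le_div_of_nonneg_right hz1r (by positivity)
  have h10 : (x : ℝ) / L ^ (A + 1) + x / L ^ (A + 1) ≤ x / L ^ A := by
    rw [pow_succ, ← add_div, div_le_div_iff₀ (by positivity) (by positivity)]
    have : 0 < (x : ℝ) * L ^ A := by positivity
    nlinarith
  refine (abs_add_le _ _).trans ?_
  linarith

end Pool.Agent.Run7.h385.CW
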