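import Pool.Agent.Run7.h385.CW.Pat

set_option autoImplicit false

/-! Polynomial language. -/

namespace Pool.Agent.Run7.h385.CW.Fin

open Finset
open scoped Polynomial
open Pool.Agent.H373R2.T7
open Pool.Agent.Run7.h385.CW

lemma lam_one : lam 1 = 1 := by
  unfold lam
  simp

lemma lam_mul (a b : ℤ) : lam (a * b) = lam a * lam b := by
  unfold lam
  by_cases ha : a = 0
  · simp [ha]
  by_cases hb : b = 0
  · simp [hb]
  rw [if_neg ha, if_neg hb, if_neg (mul_ne_zero ha hb), Int.natAbs_mul,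
    ArithmeticFunction.cardFactors_mul (Int.natAbs_ne_zero.2 ha) (Int.natAbs_ne_zero.2 hb), pow_add]

lemma lam_prod {ι : Type} (s : Finset ι) (f : ι → ℤ) : lam (∏ i ∈ s, f i) = ∏ i ∈ s, lam (f i) := by
  classical
  induction s using Finset.induction_on with
  | empty => simp [lam_one]
  | insert a s ha ih => rw [prod_insert ha, prod_insert ha, lam_mul, ih]

/-- the polynomials `F_l + c_l0 + c_l1 x + … + c_l(d-1) x^(d-1)` -/
noncomputable def poly {g d : ℕ} (F : Fin g → ℤ[X]) (c : Fin g → Fin d → ℤ) (l : Fin g) : ℤ[X] :=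
  F l + ∑ j : Fin d, Polynomial.C (c l j) * Polynomial.X ^ (j : ℕ)

/-- the box of the coefficients `a_lj ≤ c_lj < a_lj + Y_lj` -/
noncomputable def box {g d : ℕ} (a : Fin g → Fin d → ℤ) (Y : Fin g → Fin d → ℕ) : Finset (Fin g → Fin d → ℤ) :=
  Fintype.piFinset (fun l => Fintype.piFinset (fun j => Ico (a l j) (a l j + Y l j)))

/-- the product of the polynomials `f_l(x + h)`, `l ≤ g`, `h ∈ T_l` -/
noncomputable def Phi {g : ℕ} (f : Fin g → ℤ[X]) (T : Fin g → Finset ℕ) : ℤ[X] :=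
  ∏ l, ∏ h ∈ T l, (f l).comp (Polynomial.X + Polynomial.C (h : ℤ))

def Sizes {g d : ℕ} (C V X : ℕ) (F : Fin g → ℤ[X]) (a : Fin g → Fin d → ℤ) (Y : Fin g → Fin d → ℕ) : Prop :=
  (∀ l, ∀ n : ℕ, (n : ℝ) ≤ Real.log X ^ C → |(((F l).eval (n : ℤ) : ℤ) : ℝ)| ≤ X * Real.log X ^ V) ∧
  (∀ l j, |(a l j : ℝ)| ≤ X ∧ (X : ℝ) / Real.log X ^ V ≤ Y l j ∧ (Y l j : ℝ) ≤ X)

lemma eval_poly {g d : ℕ} (F : Fin g → ℤ[X]) (a t : Fin g → Fin d → ℤ) (l : Fin g) (n : ℕ) :
    (poly F (fun l j => a l j + t l j) l).eval (n : ℤ) =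
      ((F l).eval (n : ℤ) + ∑ j : Fin d, a l j * (n : ℤ) ^ (j : ℕ)) + PO.ev 1 (t l) n := by
  unfold poly PO.ev
  rw [Polynomial.eval_add, Polynomial.eval_finset_sum]
  simp only [Polynomial.eval_mul, Polynomial.eval_C, Polynomial.eval_pow, Polynomial.eval_X, Nat.cast_one, one_mul,
    add_mul, sum_add_distrib]
  ring

lemma eval_Phi {g : ℕ} (f : Fin g → ℤ[X]) (T : Fin g → Finset ℕ) (n : ℕ) :
    (Phi f T).eval (n : ℤ) = ∏ l, ∏ h ∈ T l, (f l).eval ((n + h : ℕ) : ℤ) := by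
  unfold Phi
  rw [Polynomial.eval_prod]
  apply prod_congr rfl
  intro l _
  rw [Polynomial.eval_prod]
  apply prod_congr rfl
  intro h _
  rw [Polynomial.eval_comp]
  congr 1
  simp

theorem main (d g C1 K A : ℕ) (hd : 2 ≤ d) : ∃ B : ℕ, ∀ C V : ℕ, ∃ X0 : ℕ, ∀ X : ℕ, X0 ≤ X →
    ∀ (F : Fin g → ℤ[X]) (a : Fin g → Fin d → ℤ) (Y : Fin g → Fin d → ℕ), Sizes C V X F a Y →
    ∀ N : ℕ, (N : ℝ) ≤ Real.log X ^ K → ∀ w : ℕ → ℕ → ℝ, (∀ s n, |w s n| ≤ 1) →
    ∃ Ex ⊆ box a Y, (Ex.card : ℝ) ≤ (box a Y).card / Real.log X ^ A ∧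
      ∀ c ∈ box a Y, c ∉ Ex → ∀ T : Fin g → Finset ℕ, (∀ l, (T l).card < d) →
        (∀ l, ∀ h ∈ T l, (h : ℝ) ≤ Real.log X ^ C1) → ∀ s < N,
        ∀ x : ℕ, Real.log X ^ B ≤ x → (x : ℝ) + Real.log X ^ C1 ≤ Real.log X ^ C →
        ((∃ l, (T l).Nonempty) →
          |∑ n ∈ Icc 1 x, w s n * lam ((Phi (poly F c) T).eval (n : ℤ))| ≤ x / Real.log X ^ A) ∧
        ∀ ε : Fin g → ℕ → ℝ, (∀ l h, ε l h = 1 ∨ ε l h = -1) →
          |∑ n ∈ (Icc 1 x).filter (fun n : ℕ => ∀ l, ∀ h ∈ T l, lam ((poly F c l).eval ((n + h : ℕ) : ℤ)) = ε l h), w s n -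
            (1 / 2) ^ (∑ l, (T l).card) * ∑ n ∈ Icc 1 x, w s n| ≤ x / Real.log X ^ A := by
  obtain ⟨B, hB⟩ := pat d g C1 K A hd
  refine ⟨B, fun C V => ?_⟩
  obtain ⟨X1, hX1⟩ := hB C (V + C * d + 1)
  obtain ⟨X2, hX2⟩ := ev_L' ((d : ℝ) + 4)
  refine ⟨max X1 X2, fun X hX F a Y hS N hN w hw => ?_⟩
  have hM := hX1 X (le_trans (le_max_left _ _) hX)
  have hLd := hX2 X (le_trans (le_max_right _ _) hX)
  set L : ℝ := Real.log X with hL
  have hd0 : (0 : ℝ) ≤ d := Nat.cast_nonneg _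
  have hL1 : 1 ≤ L := by linarith
  have hL0 : 0 < L := by linarith
  have hX0 : (0 : ℝ) ≤ X := Nat.cast_nonneg _
  have hVV : L ^ V ≤ L ^ (V + C * d + 1) := pow_le_pow_right₀ hL1 (by omega)
  obtain ⟨Ex, hEx1, hEx2, hEx3⟩ := hM (fun l n => (F l).eval (n : ℤ) + ∑ j : Fin d, a l j * (n : ℤ) ^ (j : ℕ)) (by
    intro l n hn
    push_cast
    have h1 := hS.1 l n hn
    have h2 : |∑ j : Fin d, (a l j : ℝ) * (n : ℝ) ^ (j : ℕ)| ≤ d * (X * L ^ (C * d)) := by
      refine (abs_sum_le_sum_abs _ _).trans ?_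
      refine (sum_le_sum (g := fun _ => (X : ℝ) * L ^ (C * d)) fun j _ => ?_).trans ?_
      · rw [abs_mul, abs_of_nonneg (by positivity : (0 : ℝ) ≤ (n : ℝ) ^ (j : ℕ))]
        refine mul_le_mul (hS.2 l j).1 ?_ (by positivity) hX0
        calc (n : ℝ) ^ (j : ℕ) ≤ (L ^ C) ^ (j : ℕ) := pow_le_pow_left₀ (Nat.cast_nonneg _) hn _
          _ ≤ (L ^ C) ^ d := pow_le_pow_right₀ (one_le_pow₀ hL1) j.2.le
          _ = L ^ (C * d) := by rw [pow_mul]
      · rw [sum_const, card_univ, Fintype.card_fin, nsmul_eq_mul]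
    refine (abs_add_le _ _).trans ((add_le_add h1 h2).trans ?_)
    have h3 : L ^ V ≤ L ^ (V + C * d) := pow_le_pow_right₀ hL1 (by omega)
    have h4 : L ^ (C * d) ≤ L ^ (V + C * d) := pow_le_pow_right₀ hL1 (by omega)
    have h5 : (X : ℝ) * L ^ V ≤ X * L ^ (V + C * d) := mul_le_mul_of_nonneg_left h3 hX0
    have h6 : (d : ℝ) * (X * L ^ (C * d)) ≤ d * (X * L ^ (V + C * d)) :=
      mul_le_mul_of_nonneg_left (mul_le_mul_of_nonneg_left h4 hX0) hd0
    have h7 : (X : ℝ) * L ^ (V + C * d + 1) = L * (X * L ^ (V + C * d)) := by rw [pow_succ]; ring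
    have h8 : (0 : ℝ) ≤ X * L ^ (V + C * d) := by positivity
    rw [h7]
    nlinarith) Y (fun l j => ⟨(div_le_div_of_nonneg_left hX0 (by positivity) hVV).trans (hS.2 l j).2.1, (hS.2 l j).2.2⟩)
    ℕ (range N) (by rw [card_range]; exact hN) w hw
  have hinj : Function.Injective (fun t : Fin g → Fin d → ℤ => fun l j => a l j + t l j) := by
    intro t t' h
    funext l j
    have := congrFun (congrFun h l) j
    simp only at this
    omega
  have hbox : ∀ t : Fin g → Fin d → ℤ, t ∈ Fintype.piFinset (fun l => PO.box (Y l)) ↔ (fun l j => a l j + t l j) ∈ box a Y := by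
    intro t
    unfold box PO.box
    simp only [Fintype.mem_piFinset, mem_Ico]
    constructor
    · intro h l j
      have := h l j
      omega
    · intro h l j
      have := h l j
      omega
  have hcard : ((box a Y).card : ℝ) = ∏ l, ∏ j, (Y l j : ℝ) := by
    unfold box
    simp only [Fintype.card_piFinset, Int.card_Ico, add_sub_cancel_left, Int.toNat_natCast]
    push_cast
    rfl
  refine ⟨Ex.image (fun t => fun l j => a l j + t l j), ?_, ?_, ?_⟩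
  · intro c hc
    rw [mem_image] at hc
    obtain ⟨t, ht, rfl⟩ := hc
    exact (hbox t).1 (hEx1 ht)
  · rw [card_image_of_injective _ hinj, hcard]
    exact hEx2
  · intro c hc hcE T hT hTh s hs x hx1 hx2
    obtain ⟨t, rfl⟩ : ∃ t : Fin g → Fin d → ℤ, c = fun l j => a l j + t l j := ⟨fun l j => c l j - a l j, by
      funext l j
      simp⟩
    have ht := (hbox t).2 hc
    have htE : t ∉ Ex := fun h => hcE (mem_image.2 ⟨t, h, rfl⟩)
    obtain ⟨h1, h2⟩ := hEx3 t ht htE T (fun l => hT l) hTh s (mem_range.2 hs) x hx1 hx2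
    refine ⟨fun hne => ?_, fun ε hε => ?_⟩
    · refine le_trans (le_of_eq ?_) (h1 hne)
      congr 1
      apply sum_congr rfl
      intro n _
      rw [eval_Phi, lam_prod]
      unfold Q
      congr 1
      apply prod_congr rfl
      intro l _
      rw [lam_prod]
      apply prod_congr rfl
      intro h _
      rw [eval_poly]
    · have h3 := h2 ε hε
      simp only [eval_poly]
      exact h3

end Pool.Agent.Run7.h385.CW.Fin
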