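import Pool.Agent.Run7.h871.PO.DIFF
import Pool.Agent.Run7.h385.PO.BIL
import Pool.Agent.Run7.h385.PO.TERM
import Pool.Agent.Run7.h416.PO.COEF
import Pool.Agent.H373R2.T7.SupLiou

set_option autoImplicit false

/-! The Liouville function along the values of random polynomials, arguments up to a power of the
logarithm of the height: correlations of up to `2 d - 1` values. -/

namespace Pool.Agent.Run7.h385.CW

open Finset
open Pool.Agent.H373R2.T7
open Pool.Agent.H807R2.Dav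
open Pool.Agent.Run7.h385.PO
open Pool.Agent.Run7.h871.PO

/-- the Liouville function on the integers -/
noncomputable def lam (m : ℤ) : ℝ := if m = 0 then 0 else (-1) ^ ArithmeticFunction.cardFactors m.natAbs

lemma lam_abs (m : ℤ) : |lam m| ≤ 1 := by
  unfold lam
  split_ifs
  · simp
  · rw [abs_pow, abs_neg, abs_one, one_pow]

noncomputable def psi (n : ℕ) : ℝ := if n = 0 then 0 else (-1) ^ ArithmeticFunction.cardFactors n

lemma lam_psi (m : ℤ) : lam m = psi m.natAbs := by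
  unfold lam psi
  simp only [Int.natAbs_eq_zero]

lemma psi_liR (n : ℕ) (hn : 1 ≤ n) : ((psi n : ℝ) : ℂ) = liR n := by
  unfold psi liR
  rw [if_neg (by omega)]
  push_cast
  rfl

theorem EB (d k C U : ℕ) (hd : 1 ≤ d) (hk1 : 1 ≤ k) (hk : k + 1 ≤ 2 * d) : ∃ X0 : ℕ, ∀ X : ℕ, X0 ≤ X →
    ∀ n : Fin k → ℕ, Function.Injective n → (∀ i, (n i : ℝ) ≤ Real.log X ^ C) →
    ∀ u : Fin k → ℤ, (∀ i, |(u i : ℝ)| ≤ X * Real.log X ^ C) →
    ∀ Y : Fin d → ℕ, (∀ j, (X : ℝ) / Real.log X ^ C ≤ Y j ∧ (Y j : ℝ) ≤ X) →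
    |∑ t ∈ box Y, ∏ i, lam (u i + ev 1 t (n i))| ≤ (∏ j, (Y j : ℝ)) / Real.log X ^ U := by
  have hTERM : S_TERM := t_TERM t_BIL Run7.h416.PO.t_COEF Run7.h416.PO.t_SHIFT
  set C1 : ℕ := C * d + C + 3 with hC1
  set C3 : ℕ := C * d + C + k + U + 2 with hC3
  obtain ⟨N0, hN0⟩ := sup_liou (C1 + 2 * k + C3 + (U + 2))
  obtain ⟨x1, hx1⟩ := ev_L' (max (max ((2 : ℝ) ^ 0) (2 * d + 1))
    (max ((2 : ℝ) ^ (d + 1)) ((k : ℝ) * (d * 2 ^ (d + k + 2) + 12 * 4 ^ k))))
  obtain ⟨x2, hx2⟩ := ev_log' (1 + 2 * k + C3 + (U + 2) + C1) 2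
  refine ⟨max (max N0 0) (max x1 (max x2 3)), fun X hX n hn hnC u hu Y hY => ?_⟩
  have hW1 : 1 ≤ 1 := le_rfl
  have hXN0 : N0 ≤ X := le_trans (le_trans (le_max_left _ _) (le_max_left _ _)) hX
  have hLbig := hx1 X (le_trans (le_trans (le_max_left _ _) (le_max_right _ _)) hX)
  have hsq := hx2 X (le_trans (le_trans (le_trans (le_max_left _ _) (le_max_right _ _))
    (le_max_right _ _)) hX)
  have hX3 : 3 ≤ X := le_trans (le_trans (le_trans (le_max_right _ _) (le_max_right _ _))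
    (le_max_right _ _)) hX
  have hX3r : (3 : ℝ) ≤ X := by exact_mod_cast hX3
  have hX0 : (0 : ℝ) < X := by linarith
  set L : ℝ := Real.log X with hLd
  have hLd1 : (2 : ℝ) * d + 1 ≤ L := le_trans (le_trans (le_max_right _ _) (le_max_left _ _)) hLbig
  have hLd2 : (2 : ℝ) ^ (d + 1) ≤ L := le_trans (le_trans (le_max_left _ _) (le_max_right _ _)) hLbig
  have hLc : (k : ℝ) * (d * 2 ^ (d + k + 2) + 12 * 4 ^ k) ≤ L :=
    le_trans (le_trans (le_max_right _ _) (le_max_right _ _)) hLbig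
  have hd1 : (1 : ℝ) ≤ d := by exact_mod_cast hd
  have hL1 : 1 ≤ L := by linarith
  have hL0 : 0 < L := by linarith
  have hsX : √(X : ℝ) ≤ X := by
    rw [Real.sqrt_le_left (by positivity)]; nlinarith
  have hbig : 2 * L ^ (1 + 2 * k + C3 + (U + 2) + C1) ≤ X := hsq.trans hsX
  have hpow : ∀ m : ℕ, m ≤ 1 + 2 * k + C3 + (U + 2) + C1 → 2 * L ^ m ≤ X := by
    intro m hm
    refine le_trans ?_ hbig
    exact mul_le_mul_of_nonneg_left (pow_le_pow_right₀ hL1 hm) (by norm_num)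
  -- the parameter K
  set K : ℕ := ⌈(X : ℝ) * L ^ C1⌉₊ with hKd
  have hXL1 : (X : ℝ) ≤ X * L ^ C1 := le_mul_of_one_le_right hX0.le (one_le_pow₀ hL1)
  have hKle : (X : ℝ) * L ^ C1 ≤ K := Nat.le_ceil _
  have hXK : (X : ℝ) ≤ K := hXL1.trans hKle
  have hXKn : X ≤ K := by exact_mod_cast hXK
  have hK2 : (K : ℝ) ≤ 2 * X * L ^ C1 := by
    have h1 := (Nat.ceil_lt_add_one (show (0 : ℝ) ≤ (X : ℝ) * L ^ C1 by positivity)).le
    rw [← hKd] at h1
    linarith
  have hKsq : (K : ℝ) ≤ (X : ℝ) ^ 2 := by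
    have h1 := hpow C1 (by omega)
    have h2 : 2 * (X : ℝ) * L ^ C1 = X * (2 * L ^ C1) := by ring
    rw [h2] at hK2
    refine hK2.trans ?_
    rw [sq]
    exact mul_le_mul_of_nonneg_left h1 hX0.le
  have hK0 : (0 : ℝ) < K := by linarith
  have hlKle : Real.log K ≤ 2 * L := by
    have h1 := Real.log_le_log hK0 hKsq
    rw [Real.log_pow] at h1
    push_cast at h1
    exact h1
  have hlKge : L ≤ Real.log K := Real.log_le_log hX0 hXK
  have hW : ((1 : ℕ) : ℝ) ≤ L := by push_cast; exact hL1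
  -- the other parameters
  set S : ℕ := ⌊(X : ℝ) / L ^ C3⌋₊ with hSd
  set N : ℕ := ⌊L ^ C⌋₊ with hNd
  set Ym : ℕ := ⌈(X : ℝ) / L ^ C⌉₊ with hYmd
  have hC3X : 1 ≤ (X : ℝ) / L ^ C3 := by
    rw [one_le_div (by positivity)]
    have := hpow C3 (by omega)
    have h2 : 0 ≤ L ^ C3 := by positivity
    linarith
  have hS2 : (S : ℝ) ≤ X / L ^ C3 := Nat.floor_le (by positivity)
  have hS1 : (X : ℝ) / (2 * L ^ C3) ≤ S := by
    have h1 := Nat.lt_floor_add_one ((X : ℝ) / L ^ C3)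
    have h2 : 1 ≤ S := by
      rw [hSd]
      exact Nat.le_floor (by simpa using hC3X)
    have h3 : (1 : ℝ) ≤ S := by exact_mod_cast h2
    have h4 : (X : ℝ) / (2 * L ^ C3) = (X / L ^ C3) / 2 := by ring
    rw [h4]
    linarith
  have hSpos : 1 ≤ S := by
    rw [hSd]
    exact Nat.le_floor (by simpa using hC3X)
  have hnN : ∀ i, n i ≤ N := fun i => Nat.le_floor (hnC i)
  have hNle : (N : ℝ) + 1 ≤ 2 * L ^ C := by
    have h1 : (N : ℝ) ≤ L ^ C := Nat.floor_le (by positivity)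
    have h2 : 1 ≤ L ^ C := one_le_pow₀ hL1
    linarith
  have hYm : ∀ j, Ym ≤ Y j := fun j => Nat.ceil_le.2 (hY j).1
  have hYmge : (X : ℝ) / L ^ C ≤ Ym := Nat.le_ceil _
  have hSN : 2 * S * (N + 1) ^ d ≤ Ym := by
    have h1 : (2 : ℝ) * S * ((N : ℝ) + 1) ^ d ≤ Ym := by
      have a1 : ((N : ℝ) + 1) ^ d ≤ (2 * L ^ C) ^ d := pow_le_pow_left₀ (by positivity) hNle d
      have a2 : (2 : ℝ) * S * ((N : ℝ) + 1) ^ d ≤ 2 * (X / L ^ C3) * (2 * L ^ C) ^ d :=
        mul_le_mul (by linarith) a1 (by positivity) (by positivity)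
      refine a2.trans (le_trans ?_ hYmge)
      rw [mul_pow, ← pow_mul]
      have a3 : 2 * (X / L ^ C3) * (2 ^ d * L ^ (C * d)) = X * (2 ^ (d + 1) * L ^ (C * d)) / L ^ C3 := by
        rw [pow_succ]
        ring
      rw [a3, div_le_div_iff₀ (by positivity) (by positivity)]
      have a4 : 2 ^ (d + 1) * L ^ (C * d) * L ^ C ≤ L ^ C3 := by
        have a5 : L ^ C3 = L * L ^ (C * d) * L ^ C * L ^ (k + U + 1) := by
          rw [hC3, show C * d + C + k + U + 2 = 1 + C * d + C + (k + U + 1) by ring, pow_add,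
            pow_add, pow_add, pow_one]
        rw [a5]
        have a6 : 2 ^ (d + 1) * L ^ (C * d) * L ^ C ≤ L * L ^ (C * d) * L ^ C := by
          gcongr
        refine a6.trans (le_mul_of_one_le_right (by positivity) (one_le_pow₀ hL1))
      calc X * (2 ^ (d + 1) * L ^ (C * d)) * L ^ C = X * (2 ^ (d + 1) * L ^ (C * d) * L ^ C) := by ring
        _ ≤ X * L ^ C3 := mul_le_mul_of_nonneg_left a4 hX0.le
    exact_mod_cast h1
  have hval : ∀ t : Fin d → ℤ, (∀ j, |t j| ≤ 2 * (Y j : ℤ)) → ∀ i, |u i + ev 1 t (n i)| ≤ K := by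
    intro t ht i
    have h1 : ∀ j, |(t j : ℝ)| ≤ 2 * X := by
      intro j
      have h2 : |(t j : ℝ)| ≤ 2 * (Y j : ℝ) := by exact_mod_cast ht j
      have h3 := (hY j).2
      linarith
    have h2 := ev_abs 1 t (n i) (2 * X) (L ^ C) (by positivity) (one_le_pow₀ hL1) (hnC i) h1
    have h3 : ((1 : ℕ) : ℝ) * (d * (2 * X * (L ^ C) ^ d)) ≤ L * (d * (2 * X * (L ^ C) ^ d)) :=
      mul_le_mul_of_nonneg_right hW (by positivity)
    have h4 := hu i
    have h5 : |((u i + ev 1 t (n i) : ℤ) : ℝ)| ≤ X * L ^ C + L * (d * (2 * X * (L ^ C) ^ d)) := by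
      push_cast
      refine (abs_add_le _ _).trans ?_
      linarith
    have h6 : X * L ^ C + L * (d * (2 * X * (L ^ C) ^ d)) ≤ X * L ^ C1 := by
      rw [← pow_mul]
      have g1 : L ^ C ≤ L ^ (C * d + C + 2) := pow_le_pow_right₀ hL1 (by omega)
      have g2 : L ^ (C * d + 1) ≤ L ^ (C * d + C + 2) := pow_le_pow_right₀ hL1 (by omega)
      have g3 : L ^ C1 = L * L ^ (C * d + C + 2) := by
        rw [hC1, show C * d + C + 3 = 1 + (C * d + C + 2) by ring, pow_add, pow_one]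
      have g4 : L * (d * (2 * X * L ^ (C * d))) = X * (2 * d * L ^ (C * d + 1)) := by
        rw [pow_succ]; ring
      rw [g3, g4, ← mul_add]
      apply mul_le_mul_of_nonneg_left _ hX0.le
      have g5 : 2 * (d : ℝ) * L ^ (C * d + 1) ≤ 2 * d * L ^ (C * d + C + 2) := by gcongr
      have g6 : (2 * (d : ℝ) + 1) * L ^ (C * d + C + 2) ≤ L * L ^ (C * d + C + 2) := by gcongr
      linarith
    have h7 : |((u i + ev 1 t (n i) : ℤ) : ℝ)| ≤ K := h5.trans (h6.trans hKle)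
    exact_mod_cast h7
  -- the functions
  have hφle : ∀ _i : Fin k, ∀ m : ℤ, |m| ≤ K → |lam m| ≤ 2 * L := by
    intro _ m _
    exact (lam_abs m).trans (by linarith)
  set B' : ℝ := 2 * ((K : ℝ) / Real.log K ^ (C1 + 2 * k + C3 + (U + 2))) + 2 * L with hB'
  have hexp : ∀ θ : ℝ, ‖∑ m ∈ Icc (-(K : ℤ)) K, ((lam m : ℝ) : ℂ) * ee ((m : ℝ) * θ)‖ ≤ B' := by
    intro θ
    have h1 := sym_sum K psi ((K : ℝ) / Real.log K ^ (C1 + 2 * k + C3 + (U + 2))) (2 * L)
      (fun α => by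
        have h2 := hN0 K (hXN0.trans hXKn) α
        refine le_trans (le_of_eq ?_) h2
        congr 1
        apply sum_congr rfl
        intro n hn
        rw [psi_liR n (mem_Icc.1 hn).1]) (by
        unfold psi
        simp
        linarith) θ
    simp only [lam_psi]
    exact h1
  have hterm := hTERM d k hd hk n hn N hnN u 1 hW1 Y K Ym hYm hval (fun _ => lam) (2 * L) (by linarith)
      (fun i m hm => hφle i m hm) ⟨0, hk1⟩ B' hexp S hSpos hSN
  refine hterm.trans ?_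
  have hnum := numeric d k C U L X K S N Ym hL1 hX0 hLc (by
      have h1 := hpow (1 + 2 * k + C3 + (U + 2)) (by omega)
      have h2 : 0 ≤ L ^ (1 + 2 * k + C3 + (U + 2)) := by positivity
      linarith) hK2 hS1 hS2 (Nat.cast_nonneg _) hNle hYmge (Real.log K) hlKge
  set QQ : ℝ := B' * (2 * L) ^ (2 * k) / S + 2 * d * (2 * S * ((N : ℝ) + 1) ^ d / Ym) * (2 * L) ^ k with hQQ
  have hk1r : (1 : ℝ) ≤ k := by exact_mod_cast hk1
  have hlK0 : 0 < Real.log K := by linarith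
  have hQ0 : 0 ≤ QQ := by
    rw [hQQ, hB']
    positivity
  have h5 : QQ ≤ 1 / L ^ U := by
    refine le_trans ?_ hnum
    exact le_mul_of_one_le_left hQ0 hk1r
  have h6 : (0 : ℝ) ≤ ∏ j, (Y j : ℝ) := by positivity
  calc (∏ j, (Y j : ℝ)) * QQ ≤ (∏ j, (Y j : ℝ)) * (1 / L ^ U) := mul_le_mul_of_nonneg_left h5 h6
    _ = _ := by ring

end Pool.Agent.Run7.h385.CW
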