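import Pool.Agent.Run7.h385.CW.AllX
import Pool.Agent.Run7.h215.PO.TINY2

set_option autoImplicit false

/-! Sign patterns. -/

namespace Pool.Agent.Run7.h385.CW

open Finset
open Pool.Agent.H373R2.T7
open Pool.Agent.H807R2.Dav
open Pool.Agent.Run7.h385.PO
open Pool.Agent.Run7.h871.PO

lemma lam_ne (m : ℤ) (h : m ≠ 0) : lam m = 1 ∨ lam m = -1 := by
  unfold lam
  rw [if_neg h]
  exact neg_one_pow_eq_or ℝ _

lemma half (a e : ℝ) (ha : a = 1 ∨ a = -1) (he : e = 1 ∨ e = -1) : (1 + e * a) / 2 = if a = e then 1 else 0 := by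
  rcases ha with rfl | rfl <;> rcases he with rfl | rfl <;> norm_num

/-- the expansion of the indicator function of a pattern -/
lemma expand {g : ℕ} (T : Fin g → Finset ℕ) (v : Fin g → ℕ → ℤ) (ε : Fin g → ℕ → ℝ)
    (hε : ∀ l h, ε l h = 1 ∨ ε l h = -1) (hv : ∀ l, ∀ h ∈ T l, v l h ≠ 0) :
    (if (∀ l, ∀ h ∈ T l, lam (v l h) = ε l h) then (1 : ℝ) else 0) =
      (1 / 2) ^ (∑ l, (T l).card) * ∑ S ∈ Fintype.piFinset (fun l => (T l).powerset),
        (∏ l, ∏ h ∈ S l, ε l h) * ∏ l, ∏ h ∈ S l, lam (v l h) := by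
  classical
  have h1 : (if (∀ l, ∀ h ∈ T l, lam (v l h) = ε l h) then (1 : ℝ) else 0) =
      ∏ l, ∏ h ∈ T l, (1 + ε l h * lam (v l h)) / 2 := by
    have h2 : ∀ l, ∏ h ∈ T l, (1 + ε l h * lam (v l h)) / 2 = if (∀ h ∈ T l, lam (v l h) = ε l h) then 1 else 0 := by
      intro l
      rw [prod_congr rfl (fun h hh => half _ _ (lam_ne _ (hv l h hh)) (hε l h)), prod_ite_zero, prod_const_one]
    rw [prod_congr rfl (fun l _ => h2 l), prod_ite_zero, prod_const_one]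
    simp only [mem_univ, true_implies]
  rw [h1]
  have h3 : ∀ l, ∏ h ∈ T l, (1 + ε l h * lam (v l h)) / 2 =
      (1 / 2) ^ (T l).card * ∑ S ∈ (T l).powerset, ∏ h ∈ S, (ε l h * lam (v l h)) := by
    intro l
    rw [← prod_one_add, prod_div_distrib, prod_const, one_div, inv_pow]
    ring
  rw [prod_congr rfl (fun l _ => h3 l), prod_mul_distrib, prod_pow_eq_pow_sum, prod_univ_sum]
  congr 1
  apply sum_congr rfl
  intro S _
  rw [← prod_mul_distrib]
  apply prod_congr rfl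
  intro l _
  rw [prod_mul_distrib]

/-- **Correlations and sign patterns.** -/
theorem pat (d g C1 K A : ℕ) (hd : 2 ≤ d) : ∃ B : ℕ, ∀ C V : ℕ, ∃ X0 : ℕ, ∀ X : ℕ, X0 ≤ X →
    ∀ F : Fin g → ℕ → ℤ, (∀ l, ∀ n : ℕ, (n : ℝ) ≤ Real.log X ^ C → |(F l n : ℝ)| ≤ X * Real.log X ^ V) →
    ∀ Y : Fin g → Fin d → ℕ, (∀ l j, (X : ℝ) / Real.log X ^ V ≤ Y l j ∧ (Y l j : ℝ) ≤ X) →
    ∀ (ι : Type) (N' : Finset ι), (N'.card : ℝ) ≤ Real.log X ^ K → ∀ (w : ι → ℕ → ℝ),
    (∀ s n, |w s n| ≤ 1) →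
    ∃ Ex ⊆ Fintype.piFinset (fun l => box (Y l)), (Ex.card : ℝ) ≤ (∏ l, ∏ j, (Y l j : ℝ)) / Real.log X ^ A ∧
      ∀ c ∈ Fintype.piFinset (fun l => box (Y l)), c ∉ Ex → ∀ T : Fin g → Finset ℕ,
        (∀ l, (T l).card + 1 ≤ d) → (∀ l, ∀ h ∈ T l, (h : ℝ) ≤ Real.log X ^ C1) → ∀ s ∈ N',
        ∀ x : ℕ, Real.log X ^ B ≤ x → (x : ℝ) + Real.log X ^ C1 ≤ Real.log X ^ C →
        ((∃ l, (T l).Nonempty) → |∑ n ∈ Icc 1 x, w s n * Q F T c n| ≤ x / Real.log X ^ A) ∧
        ∀ ε : Fin g → ℕ → ℝ, (∀ l h, ε l h = 1 ∨ ε l h = -1) →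
          |∑ n ∈ (Icc 1 x).filter (fun n => ∀ l, ∀ h ∈ T l, lam (F l (n + h) + ev 1 (c l) (n + h)) = ε l h), w s n -
            (1 / 2) ^ (∑ l, (T l).card) * ∑ n ∈ Icc 1 x, w s n| ≤ x / Real.log X ^ A := by
  obtain ⟨B, hB⟩ := allx d g C1 K (A + 1) hd
  refine ⟨B, fun C V => ?_⟩
  obtain ⟨X1, hX1⟩ := hB C V
  obtain ⟨X2, hX2⟩ := ev_L' 4
  obtain ⟨X3, hX3⟩ := ev_log' (C + V + A + 1) (2 * g)
  refine ⟨max X1 (max X2 (max X3 1)), fun X hX F hF Y hY ι N' hN' w hw => ?_⟩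
  have hM := hX1 X (le_trans (le_max_left _ _) hX)
  have hL4 := hX2 X (le_trans (le_trans (le_max_left _ _) (le_max_right _ _)) hX)
  have hsq := hX3 X (le_trans (le_trans (le_trans (le_max_left _ _) (le_max_right _ _)) (le_max_right _ _)) hX)
  have hX1n : 1 ≤ X := le_trans (le_trans (le_trans (le_max_right _ _) (le_max_right _ _)) (le_max_right _ _)) hX
  have hX1r : (1 : ℝ) ≤ X := by exact_mod_cast hX1n
  set L : ℝ := Real.log X with hL
  have hL1 : 1 ≤ L := by linarith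
  have hL0 : 0 < L := by linarith
  have hX0 : (0 : ℝ) < X := by linarith
  obtain ⟨Ex, hEx1, hEx2, hEx3⟩ := hM F hF Y hY ι N' hN' w hw
  set P : ℝ := ∏ l, ∏ j, (Y l j : ℝ) with hP
  have hP0 : 0 ≤ P := by positivity
  obtain ⟨Z, hZ, h1⟩ : ∃ Z : Finset (Fin g → Fin d → ℤ), (∀ t, t ∈ Z ↔ t ∈ Fintype.piFinset (fun l => box (Y l)) ∧
      ∃ n ∈ range (⌊L ^ C⌋₊ + 1), ∃ l, |F l n + ev 1 (t l) n| ≤ ((0 : ℕ) : ℤ)) ∧
      (Z.card : ℝ) ≤ ((range (⌊L ^ C⌋₊ + 1)).card * g * (2 * ((0 : ℕ) : ℝ) + 1) / ((⌈(X : ℝ) / L ^ V⌉₊ : ℕ) : ℝ)) * P :=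
    ⟨_, fun t => mem_filter, Pool.Agent.Run7.h215.PO.t_TINY2 g d 1 (by omega) le_rfl Y F (range (⌊L ^ C⌋₊ + 1)) 0
      ⌈(X : ℝ) / L ^ V⌉₊ (Nat.ceil_pos.2 (by positivity)) (fun l j => Nat.ceil_le.2 (hY l j).1)⟩
  have hZc : (Z.card : ℝ) ≤ P / L ^ (A + 1) := by
    refine h1.trans ?_
    rw [card_range]
    have h2 : ((⌊L ^ C⌋₊ + 1 : ℕ) : ℝ) ≤ 2 * L ^ C := by
      push_cast
      have h3 : ((⌊L ^ C⌋₊ : ℕ) : ℝ) ≤ L ^ C := Nat.floor_le (by positivity)
      have h4 : 1 ≤ L ^ C := one_le_pow₀ hL1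
      linarith
    have h3 : (X : ℝ) / L ^ V ≤ ((⌈(X : ℝ) / L ^ V⌉₊ : ℕ) : ℝ) := Nat.le_ceil _
    have h4 : ((⌊L ^ C⌋₊ + 1 : ℕ) : ℝ) * g * (2 * ((0 : ℕ) : ℝ) + 1) / ((⌈(X : ℝ) / L ^ V⌉₊ : ℕ) : ℝ) ≤
        2 * L ^ C * g / (X / L ^ V) := by
      apply div_le_div₀ (by positivity) _ (by positivity) h3
      rw [Nat.cast_zero, mul_zero, zero_add, mul_one]
      exact mul_le_mul_of_nonneg_right h2 (by positivity)
    have h5 : 2 * L ^ C * g / (X / L ^ V) ≤ 1 / L ^ (A + 1) := by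
      have h6 : √(X : ℝ) ≤ X := by
        rw [Real.sqrt_le_left (by positivity)]
        nlinarith
      have h7 := hsq.trans h6
      rw [div_div_eq_mul_div, div_le_div_iff₀ hX0 (by positivity), one_mul]
      refine le_trans (le_of_eq ?_) h7
      rw [show C + V + A + 1 = C + V + (A + 1) by ring, pow_add, pow_add]
      ring
    calc _ ≤ (1 / L ^ (A + 1)) * P := mul_le_mul_of_nonneg_right (h4.trans h5) hP0
      _ = P / L ^ (A + 1) := by ring
  refine ⟨Ex ∪ Z, union_subset hEx1 (fun t ht => ((hZ t).1 ht).1), ?_, ?_⟩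
  · have h1 : (((Ex ∪ Z).card : ℕ) : ℝ) ≤ Ex.card + Z.card := by exact_mod_cast card_union_le _ _
    have h2 : P / L ^ (A + 1) + P / L ^ (A + 1) ≤ P / L ^ A := by
      rw [pow_succ, ← add_div, div_le_div_iff₀ (by positivity) (by positivity)]
      have : 0 ≤ P * L ^ A := by positivity
      nlinarith
    linarith
  · intro c hc hcE T hTl hTh s hs x hx1 hx2
    rw [mem_union, not_or] at hcE
    have hx0 : (0 : ℝ) ≤ x := Nat.cast_nonneg _
    have hcor : ∀ T' : Fin g → Finset ℕ, (∃ l, (T' l).Nonempty) → (∀ l, T' l ⊆ T l) →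
        |∑ n ∈ Icc 1 x, w s n * Q F T' c n| ≤ x / L ^ A := by
      intro T' hT' hsub
      have h1 := hEx3 c hc hcE.1 T' hT' (fun l => by
        have := card_le_card (hsub l)
        have := hTl l
        omega) (fun l h hh => hTh l h (hsub l hh)) s hs x hx1 hx2
      refine h1.trans ?_
      apply div_le_div_of_nonneg_left hx0 (by positivity)
      exact pow_le_pow_right₀ hL1 (by omega)
    refine ⟨fun hT => hcor T hT (fun l => Subset.refl _), fun ε hε => ?_⟩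
    have hnz : ∀ n ∈ Icc 1 x, ∀ l, ∀ h ∈ T l, F l (n + h) + ev 1 (c l) (n + h) ≠ 0 := by
      intro n hn l h hh h0
      apply hcE.2
      rw [hZ]
      refine ⟨hc, n + h, ?_, l, ?_⟩
      · rw [mem_range, Nat.lt_succ_iff]
        apply Nat.le_floor
        push_cast
        have h1 : (n : ℝ) ≤ x := by exact_mod_cast (mem_Icc.1 hn).2
        have h2 := hTh l h hh
        linarith
      · rw [h0]
        simp
    have hmain : ∑ n ∈ (Icc 1 x).filter (fun n => ∀ l, ∀ h ∈ T l, lam (F l (n + h) + ev 1 (c l) (n + h)) = ε l h), w s n =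
        (1 / 2) ^ (∑ l, (T l).card) * ∑ S ∈ Fintype.piFinset (fun l => (T l).powerset),
          (∏ l, ∏ h ∈ S l, ε l h) * ∑ n ∈ Icc 1 x, w s n * Q F S c n := by
      rw [sum_filter]
      have h1 : ∀ n ∈ Icc 1 x, (if (∀ l, ∀ h ∈ T l, lam (F l (n + h) + ev 1 (c l) (n + h)) = ε l h) then w s n else 0) =
          w s n * ((1 / 2) ^ (∑ l, (T l).card) * ∑ S ∈ Fintype.piFinset (fun l => (T l).powerset),
            (∏ l, ∏ h ∈ S l, ε l h) * Q F S c n) := by
        intro n hn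
        have h2 := expand T (fun l h => F l (n + h) + ev 1 (c l) (n + h)) ε hε (hnz n hn)
        unfold Q
        rw [← h2]
        split_ifs <;> simp
      rw [sum_congr rfl h1]
      simp only [mul_sum]
      rw [sum_comm]
      apply sum_congr rfl
      intro S _
      apply sum_congr rfl
      intro n _
      ring
    rw [hmain]
    set E0 : Fin g → Finset ℕ := fun _ => ∅ with hE0
    have hE0m : E0 ∈ Fintype.piFinset (fun l => (T l).powerset) := by
      rw [Fintype.mem_piFinset]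
      intro l
      exact empty_mem_powerset _
    have hE0v : (∏ l, ∏ h ∈ E0 l, ε l h) * ∑ n ∈ Icc 1 x, w s n * Q F E0 c n = ∑ n ∈ Icc 1 x, w s n := by
      rw [hE0]
      unfold Q
      simp
    rw [← add_sum_erase _ _ hE0m, hE0v, mul_add, add_sub_cancel_left, abs_mul, abs_of_nonneg (by positivity)]
    have hcd : ((Fintype.piFinset (fun l => (T l).powerset)).card : ℝ) = 2 ^ (∑ l, (T l).card) := by
      rw [Fintype.card_piFinset]
      simp only [card_powerset]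
      rw [prod_pow_eq_pow_sum]
      push_cast
      rfl
    have hsumle : |∑ S ∈ (Fintype.piFinset (fun l => (T l).powerset)).erase E0,
        (∏ l, ∏ h ∈ S l, ε l h) * ∑ n ∈ Icc 1 x, w s n * Q F S c n| ≤ 2 ^ (∑ l, (T l).card) * (x / L ^ A) := by
      refine (abs_sum_le_sum_abs _ _).trans ?_
      refine (sum_le_sum (g := fun _ => x / L ^ A) fun S hS => ?_).trans ?_
      · rw [mem_erase, Fintype.mem_piFinset] at hS
        rw [abs_mul]
        have h1 : |∏ l, ∏ h ∈ S l, ε l h| ≤ 1 := by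
          rw [abs_prod]
          refine prod_le_one (fun _ _ => abs_nonneg _) (fun l _ => ?_)
          rw [abs_prod]
          refine prod_le_one (fun _ _ => abs_nonneg _) (fun h _ => ?_)
          rcases hε l h with h2 | h2 <;> rw [h2] <;> simp
        have h2 : ∃ l, (S l).Nonempty := by
          by_contra hcon
          apply hS.1
          funext l
          exact not_nonempty_iff_eq_empty.1 (fun h3 => hcon ⟨l, h3⟩)
        have h3 := hcor S h2 (fun l => mem_powerset.1 (hS.2 l))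
        calc _ ≤ 1 * |∑ n ∈ Icc 1 x, w s n * Q F S c n| := mul_le_mul_of_nonneg_right h1 (abs_nonneg _)
          _ ≤ x / L ^ A := by rw [one_mul]; exact h3
      · rw [sum_const, nsmul_eq_mul, ← hcd]
        apply mul_le_mul_of_nonneg_right _ (by positivity)
        exact_mod_cast card_le_card (erase_subset _ _)
    calc (1 / 2 : ℝ) ^ (∑ l, (T l).card) * _ ≤ (1 / 2 : ℝ) ^ (∑ l, (T l).card) * (2 ^ (∑ l, (T l).card) * (x / L ^ A)) :=
          mul_le_mul_of_nonneg_left hsumle (by positivity)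
      _ = x / L ^ A := by
          rw [← mul_assoc, ← mul_pow]
          norm_num

end Pool.Agent.Run7.h385.CW
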