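import Pool.Agent.Run7.h385.CW.Lam

set_option autoImplicit false

/-! The second moment over the coefficients. -/

namespace Pool.Agent.Run7.h385.CW

open Finset
open Pool.Agent.H373R2.T7
open Pool.Agent.H807R2.Dav
open Pool.Agent.Run7.h385.PO
open Pool.Agent.Run7.h871.PO

lemma prod_lam_abs {ι : Type} (s : Finset ι) (f : ι → ℤ) : |∏ i ∈ s, lam (f i)| ≤ 1 := by
  rw [abs_prod]
  exact prod_le_one (fun _ _ => abs_nonneg _) (fun _ _ => lam_abs _)

/-- the product of the values of the Liouville function -/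
noncomputable def Q {g d : ℕ} (F : Fin g → ℕ → ℤ) (T : Fin g → Finset ℕ) (c : Fin g → Fin d → ℤ) (n : ℕ) : ℝ :=
  ∏ l, ∏ h ∈ T l, lam (F l (n + h) + ev 1 (c l) (n + h))

/-- bound for one set of arguments -/
def Ebd {d : ℕ} (Y : Fin d → ℕ) (F : ℕ → ℤ) (δ : ℝ) (Z : Finset ℕ) : Prop :=
  |∑ t ∈ box Y, ∏ z ∈ Z, lam (F z + ev 1 t z)| ≤ (∏ j, (Y j : ℝ)) * δ

theorem second {g d : ℕ} (Y : Fin g → Fin d → ℕ) (F : Fin g → ℕ → ℤ) (T : Fin g → Finset ℕ) (l0 : Fin g)
    (hT0 : (T l0).Nonempty) (hTd : (T l0).card + 1 ≤ d) (I : Finset ℕ) (δ : ℝ) (hδ : 0 ≤ δ)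
    (hE : ∀ Z : Finset ℕ, Z.Nonempty → Z.card + 1 ≤ 2 * d → (∀ z ∈ Z, ∃ n ∈ I, ∃ h ∈ T l0, z = n + h) →
      Ebd (Y l0) (F l0) δ Z) (w : ℕ → ℝ) (hw : ∀ n, |w n| ≤ 1) :
    ∑ c ∈ Fintype.piFinset (fun l => box (Y l)), (∑ n ∈ I, w n * Q F T c n) ^ 2 ≤
      (∏ l, ∏ j, (Y l j : ℝ)) * ((I.card : ℝ) ^ 2 * δ + (d : ℝ) ^ 2 * I.card) := by
  classical
  set R : Fin g → (Fin d → ℤ) → ℕ → ℕ → ℝ := fun l t n n' =>
    (∏ h ∈ T l, lam (F l (n + h) + ev 1 t (n + h))) * (∏ h ∈ T l, lam (F l (n' + h) + ev 1 t (n' + h))) with hR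
  have hR1 : ∀ l t n n', |R l t n n'| ≤ 1 := by
    intro l t n n'
    rw [hR]
    simp only
    rw [abs_mul]
    exact mul_le_one₀ (prod_lam_abs _ _) (abs_nonneg _) (prod_lam_abs _ _)
  have hD : ∀ n n', ∑ c ∈ Fintype.piFinset (fun l => box (Y l)), Q F T c n * Q F T c n' =
      ∏ l, ∑ t ∈ box (Y l), R l t n n' := by
    intro n n'
    rw [Finset.prod_univ_sum]
    apply sum_congr rfl
    intro c _
    unfold Q
    rw [← prod_mul_distrib]
  set P : ℝ := ∏ l, ∏ j, (Y l j : ℝ) with hP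
  have hP0 : 0 ≤ P := by positivity
  have hcb : ∀ l, ((box (Y l)).card : ℝ) = ∏ j, (Y l j : ℝ) := by
    intro l
    rw [card_box]
    push_cast
    rfl
  have htriv : ∀ l n n', |∑ t ∈ box (Y l), R l t n n'| ≤ ∏ j, (Y l j : ℝ) := by
    intro l n n'
    refine (abs_sum_le_sum_abs _ _).trans ((sum_le_sum fun t _ => hR1 l t n n').trans ?_)
    rw [sum_const, nsmul_eq_mul, mul_one, hcb]
  have hbad : ∀ n n', |∏ l, ∑ t ∈ box (Y l), R l t n n'| ≤ P := by
    intro n n'
    rw [abs_prod]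
    exact prod_le_prod (fun _ _ => abs_nonneg _) (fun l _ => htriv l n n')
  have hgood : ∀ n ∈ I, ∀ n' ∈ I, (∀ h ∈ T l0, ∀ h' ∈ T l0, n + h ≠ n' + h') →
      |∏ l, ∑ t ∈ box (Y l), R l t n n'| ≤ P * δ := by
    intro n hn n' hn' hne
    have h1 : |∑ t ∈ box (Y l0), R l0 t n n'| ≤ (∏ j, (Y l0 j : ℝ)) * δ := by
      set Z : Finset ℕ := (T l0).image (fun h => n + h) ∪ (T l0).image (fun h => n' + h) with hZ
      have hdis : Disjoint ((T l0).image (fun h => n + h)) ((T l0).image (fun h => n' + h)) := by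
        rw [disjoint_left]
        intro z hz hz'
        rw [mem_image] at hz hz'
        obtain ⟨h, hh, rfl⟩ := hz
        obtain ⟨h', hh', he⟩ := hz'
        exact hne h hh h' hh' he.symm
      have hZc : Z.card = (T l0).card + (T l0).card := by
        rw [hZ, card_union_of_disjoint hdis, card_image_of_injective _ (add_right_injective n),
          card_image_of_injective _ (add_right_injective n')]
      have hZn : Z.Nonempty := by
        rw [← card_pos, hZc]
        have := hT0.card_pos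
        omega
      have hEZ := hE Z hZn (by rw [hZc]; omega) (by
        intro z hz
        rw [hZ, mem_union, mem_image, mem_image] at hz
        rcases hz with ⟨h, hh, rfl⟩ | ⟨h, hh, rfl⟩
        · exact ⟨n, hn, h, hh, rfl⟩
        · exact ⟨n', hn', h, hh, rfl⟩)
      unfold Ebd at hEZ
      refine le_trans (le_of_eq ?_) hEZ
      congr 1
      apply sum_congr rfl
      intro t _
      rw [hZ, prod_union hdis, prod_image (fun a _ b _ hab => add_right_injective n hab),
        prod_image (fun a _ b _ hab => add_right_injective n' hab)]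
    have hu : (univ : Finset (Fin g)) = insert l0 (univ.erase l0) := by
      rw [insert_erase (mem_univ _)]
    rw [abs_prod, hP]
    calc ∏ l, |∑ t ∈ box (Y l), R l t n n'| =
        |∑ t ∈ box (Y l0), R l0 t n n'| * ∏ l ∈ univ.erase l0, |∑ t ∈ box (Y l), R l t n n'| :=
          (mul_prod_erase univ (fun l => |∑ t ∈ box (Y l), R l t n n'|) (mem_univ l0)).symm
      _ ≤ ((∏ j, (Y l0 j : ℝ)) * δ) * ∏ l ∈ univ.erase l0, ∏ j, (Y l j : ℝ) := by
          apply mul_le_mul h1 _ (prod_nonneg fun _ _ => abs_nonneg _) (by positivity)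
          exact prod_le_prod (fun _ _ => abs_nonneg _) (fun l _ => htriv l n n')
      _ = (∏ l, ∏ j, (Y l j : ℝ)) * δ := by
          rw [← mul_prod_erase univ (fun l => ∏ j, (Y l j : ℝ)) (mem_univ l0)]
          ring
  -- bad pairs
  set bp : ℕ → Finset ℕ := fun n => I.filter (fun n' => ∃ h ∈ T l0, ∃ h' ∈ T l0, n + h = n' + h') with hbp
  have hbpc : ∀ n, ((bp n).card : ℝ) ≤ (d : ℝ) ^ 2 := by
    intro n
    have h1 : bp n ⊆ ((T l0) ×ˢ (T l0)).image (fun p => n + p.1 - p.2) := by
      intro n' hn'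
      rw [hbp] at hn'
      simp only [mem_filter] at hn'
      obtain ⟨-, h, hh, h', hh', he⟩ := hn'
      rw [mem_image]
      exact ⟨(h, h'), mem_product.2 ⟨hh, hh'⟩, by simp only; omega⟩
    have h2 : (bp n).card ≤ d ^ 2 := by
      refine (card_le_card h1).trans (card_image_le.trans ?_)
      rw [card_product, sq]
      apply Nat.mul_le_mul <;> omega
    exact_mod_cast h2
  -- expansion
  have hexp : ∑ c ∈ Fintype.piFinset (fun l => box (Y l)), (∑ n ∈ I, w n * Q F T c n) ^ 2 =
      ∑ n ∈ I, ∑ n' ∈ I, (w n * w n') * ∏ l, ∑ t ∈ box (Y l), R l t n n' := by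
    simp only [← hD]
    rw [sum_congr rfl (fun c _ => by rw [sq, sum_mul_sum]), sum_comm]
    apply sum_congr rfl
    intro n _
    rw [sum_comm]
    apply sum_congr rfl
    intro n' _
    rw [mul_sum]
    apply sum_congr rfl
    intro c _
    ring
  rw [hexp]
  have hww : ∀ n n', |w n * w n'| ≤ 1 := by
    intro n n'
    rw [abs_mul]
    exact mul_le_one₀ (hw n) (abs_nonneg _) (hw n')
  calc ∑ n ∈ I, ∑ n' ∈ I, (w n * w n') * ∏ l, ∑ t ∈ box (Y l), R l t n n' ≤
      ∑ n ∈ I, ∑ n' ∈ I, (P * δ + if n' ∈ bp n then P else 0) := by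
        apply sum_le_sum
        intro n hn
        apply sum_le_sum
        intro n' hn'
        refine (le_abs_self _).trans ?_
        rw [abs_mul]
        have h0 : |w n * w n'| * |∏ l, ∑ t ∈ box (Y l), R l t n n'| ≤ |∏ l, ∑ t ∈ box (Y l), R l t n n'| :=
          mul_le_of_le_one_left (abs_nonneg _) (hww n n')
        refine h0.trans ?_
        have hPδ : 0 ≤ P * δ := mul_nonneg hP0 hδ
        by_cases hb : n' ∈ bp n
        · rw [if_pos hb]
          have := hbad n n'
          linarith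
        · rw [if_neg hb, add_zero]
          apply hgood n hn n' hn'
          intro h hh h' hh' he
          apply hb
          rw [hbp]
          simp only [mem_filter]
          exact ⟨hn', h, hh, h', hh', he⟩
    _ ≤ ∑ n ∈ I, ((I.card : ℝ) * (P * δ) + (d : ℝ) ^ 2 * P) := by
        apply sum_le_sum
        intro n _
        rw [sum_add_distrib, sum_const, nsmul_eq_mul, ← sum_filter, sum_const, nsmul_eq_mul]
        apply add_le_add le_rfl
        apply mul_le_mul_of_nonneg_right _ hP0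
        refine le_trans ?_ (hbpc n)
        have : (I.filter (fun n' => n' ∈ bp n)).card ≤ (bp n).card := by
          apply card_le_card
          intro x hx
          exact (mem_filter.1 hx).2
        exact_mod_cast this
    _ = P * ((I.card : ℝ) ^ 2 * δ + (d : ℝ) ^ 2 * I.card) := by
        rw [sum_const, nsmul_eq_mul]
        ring

end Pool.Agent.Run7.h385.CW
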