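import Pool.Agent.Run7.h385.CW.Sec

set_option autoImplicit false

/-! All tuples of shifts at once. -/

namespace Pool.Agent.Run7.h385.CW

open Finset
open Pool.Agent.H373R2.T7
open Pool.Agent.H807R2.Dav
open Pool.Agent.Run7.h385.PO
open Pool.Agent.Run7.h871.PO

theorem EBZ (d C U : ℕ) (hd : 1 ≤ d) : ∃ X0 : ℕ, ∀ X : ℕ, X0 ≤ X →
    ∀ Z : Finset ℕ, Z.Nonempty → Z.card + 1 ≤ 2 * d → (∀ z ∈ Z, (z : ℝ) ≤ Real.log X ^ C) →
    ∀ F : ℕ → ℤ, (∀ z ∈ Z, |(F z : ℝ)| ≤ X * Real.log X ^ C) →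
    ∀ Y : Fin d → ℕ, (∀ j, (X : ℝ) / Real.log X ^ C ≤ Y j ∧ (Y j : ℝ) ≤ X) →
    Ebd Y F (1 / Real.log X ^ U) Z := by
  have h : ∀ k : ℕ, ∃ X0 : ℕ, 1 ≤ k → k + 1 ≤ 2 * d → ∀ X : ℕ, X0 ≤ X →
      ∀ n : Fin k → ℕ, Function.Injective n → (∀ i, (n i : ℝ) ≤ Real.log X ^ C) →
      ∀ u : Fin k → ℤ, (∀ i, |(u i : ℝ)| ≤ X * Real.log X ^ C) →
      ∀ Y : Fin d → ℕ, (∀ j, (X : ℝ) / Real.log X ^ C ≤ Y j ∧ (Y j : ℝ) ≤ X) →
      |∑ t ∈ box Y, ∏ i, lam (u i + ev 1 t (n i))| ≤ (∏ j, (Y j : ℝ)) / Real.log X ^ U := by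
    intro k
    by_cases h1 : 1 ≤ k
    · by_cases h2 : k + 1 ≤ 2 * d
      · obtain ⟨X0, h3⟩ := EB d k C U hd h1 h2
        exact ⟨X0, fun _ _ => h3⟩
      · exact ⟨0, fun _ h => absurd h h2⟩
    · exact ⟨0, fun h => absurd h h1⟩
  choose N hN using h
  refine ⟨∑ k ∈ range (2 * d), N k, fun X hX Z hZ hZc hz F hF Y hY => ?_⟩
  have hNX : N Z.card ≤ X := by
    refine le_trans ?_ hX
    exact single_le_sum (f := N) (fun _ _ => Nat.zero_le _) (mem_range.2 (by omega))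
  have hmem : ∀ i : Fin Z.card, Z.orderEmbOfFin rfl i ∈ Z := fun i => orderEmbOfFin_mem Z rfl i
  have e : ∀ f : ℕ → ℝ, ∏ z ∈ Z, f z = ∏ i : Fin Z.card, f (Z.orderEmbOfFin rfl i) := by
    intro f
    have h1 : Z = (univ : Finset (Fin Z.card)).image (fun i => Z.orderEmbOfFin rfl i) := by
      apply Finset.ext
      intro z
      rw [mem_image]
      constructor
      · intro hz
        have h2 : z ∈ Set.range (Z.orderEmbOfFin rfl) := by
          rw [range_orderEmbOfFin]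
          exact hz
        obtain ⟨i, hi⟩ := h2
        exact ⟨i, mem_univ _, hi⟩
      · rintro ⟨i, -, rfl⟩
        exact hmem i
    calc ∏ z ∈ Z, f z = ∏ z ∈ (univ : Finset (Fin Z.card)).image (fun i => Z.orderEmbOfFin rfl i), f z := by
          rw [← h1]
      _ = _ := prod_image (fun a _ b _ hab => (Z.orderEmbOfFin rfl).injective hab)
  have h4 := hN Z.card hZ.card_pos hZc X hNX (fun i => Z.orderEmbOfFin rfl i) (Z.orderEmbOfFin rfl).injective
    (fun i => hz _ (hmem i)) (fun i => F (Z.orderEmbOfFin rfl i)) (fun i => hF _ (hmem i)) Y hY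
  unfold Ebd
  simp only [e]
  rw [mul_one_div]
  exact h4

lemma card_few (H d : ℕ) : ((range (H + 1)).powerset.filter (fun s => s.card + 1 ≤ d)).card ≤ d * (H + 1) ^ d := by
  have h1 : (range (H + 1)).powerset.filter (fun s => s.card + 1 ≤ d) ⊆
      (range d).biUnion (fun j => powersetCard j (range (H + 1))) := by
    intro s hs
    rw [mem_filter, mem_powerset] at hs
    rw [mem_biUnion]
    exact ⟨s.card, mem_range.2 (by omega), mem_powersetCard.2 ⟨hs.1, rfl⟩⟩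
  refine (card_le_card h1).trans (card_biUnion_le.trans ?_)
  calc ∑ j ∈ range d, (powersetCard j (range (H + 1))).card ≤ ∑ j ∈ range d, (H + 1) ^ d := by
        apply sum_le_sum
        intro j hj
        rw [card_powersetCard, card_range]
        refine (Nat.choose_le_pow _ _).trans ?_
        exact Nat.pow_le_pow_right (by omega) (mem_range.1 hj).le
    _ = d * (H + 1) ^ d := by rw [sum_const, card_range, smul_eq_mul]

/-- **The main theorem** (arguments up to a power of the logarithm). -/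
theorem main (d g C1 K A : ℕ) (hd : 2 ≤ d) : ∃ B : ℕ, ∀ C V : ℕ, ∃ X0 : ℕ, ∀ X : ℕ, X0 ≤ X →
    ∀ F : Fin g → ℕ → ℤ, (∀ l, ∀ n : ℕ, (n : ℝ) ≤ Real.log X ^ C → |(F l n : ℝ)| ≤ X * Real.log X ^ V) →
    ∀ Y : Fin g → Fin d → ℕ, (∀ l j, (X : ℝ) / Real.log X ^ V ≤ Y l j ∧ (Y l j : ℝ) ≤ X) →
    ∀ (ι : Type) (N' : Finset ι), (N'.card : ℝ) ≤ Real.log X ^ K → ∀ (I : ι → Finset ℕ) (w : ι → ℕ → ℝ),
    (∀ s ∈ N', Real.log X ^ B ≤ (I s).card ∧ ∀ n ∈ I s, (n : ℝ) + Real.log X ^ C1 ≤ Real.log X ^ C) →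
    (∀ s n, |w s n| ≤ 1) →
    ∃ Ex ⊆ Fintype.piFinset (fun l => box (Y l)), (Ex.card : ℝ) ≤ (∏ l, ∏ j, (Y l j : ℝ)) / Real.log X ^ A ∧
      ∀ c ∈ Fintype.piFinset (fun l => box (Y l)), c ∉ Ex → ∀ T : Fin g → Finset ℕ, (∃ l, (T l).Nonempty) →
        (∀ l, (T l).card + 1 ≤ d) → (∀ l, ∀ h ∈ T l, (h : ℝ) ≤ Real.log X ^ C1) → ∀ s ∈ N',
        |∑ n ∈ I s, w s n * Q F T c n| ≤ (I s).card / Real.log X ^ A := by
  classical
  set E : ℕ := (1 + (C1 + 1) * d) * g with hE
  set U : ℕ := 3 * A + E + K + 1 with hU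
  refine ⟨U + 2, fun C V => ?_⟩
  obtain ⟨X1, hX1⟩ := EBZ d (max C V) U (by omega)
  obtain ⟨X2, hX2⟩ := ev_L' (max (d : ℝ) 4)
  refine ⟨max X1 X2, fun X hX F hF Y hY ι N' hN' I w hI hw => ?_⟩
  have hE1 := hX1 X (le_trans (le_max_left _ _) hX)
  have hLb := hX2 X (le_trans (le_max_right _ _) hX)
  set L : ℝ := Real.log X with hL
  have hLd : (d : ℝ) ≤ L := (le_max_left _ _).trans hLb
  have hL4 : (4 : ℝ) ≤ L := (le_max_right _ _).trans hLb
  have hL1 : 1 ≤ L := by linarith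
  have hL0 : 0 < L := by linarith
  set H : ℕ := ⌊L ^ C1⌋₊ with hH
  set P : ℝ := ∏ l, ∏ j, (Y l j : ℝ) with hP
  have hP0 : 0 ≤ P := by positivity
  set TT : Finset (Fin g → Finset ℕ) := (Fintype.piFinset
    (fun _ : Fin g => (range (H + 1)).powerset.filter (fun s => s.card + 1 ≤ d))).filter
      (fun T => ∃ l, (T l).Nonempty) with hTT
  have hTTc : (TT.card : ℝ) ≤ L ^ E := by
    have h1 : TT.card ≤ (d * (H + 1) ^ d) ^ g := by
      refine (card_filter_le _ _).trans ?_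
      rw [Fintype.card_piFinset, prod_const, card_univ, Fintype.card_fin]
      exact Nat.pow_le_pow_left (card_few H d) g
    have h2 : ((H : ℝ) + 1) ≤ L ^ (C1 + 1) := by
      have h3 : (H : ℝ) ≤ L ^ C1 := Nat.floor_le (by positivity)
      have h4 : 1 ≤ L ^ C1 := one_le_pow₀ hL1
      rw [pow_succ]
      nlinarith
    have h3 : ((d * (H + 1) ^ d : ℕ) : ℝ) ≤ L ^ (1 + (C1 + 1) * d) := by
      push_cast
      rw [pow_add, pow_one, pow_mul]
      exact mul_le_mul hLd (pow_le_pow_left₀ (by positivity) h2 d) (by positivity) hL0.le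
    calc (TT.card : ℝ) ≤ (((d * (H + 1) ^ d) ^ g : ℕ) : ℝ) := by exact_mod_cast h1
      _ = ((d * (H + 1) ^ d : ℕ) : ℝ) ^ g := by push_cast; ring
      _ ≤ (L ^ (1 + (C1 + 1) * d)) ^ g := pow_le_pow_left₀ (by positivity) h3 g
      _ = L ^ E := by rw [← pow_mul]
  -- the exceptional sets
  set bad : (Fin g → Finset ℕ) × ι → Finset (Fin g → Fin d → ℤ) := fun q =>
    (Fintype.piFinset (fun l => box (Y l))).filter
      (fun c => (I q.2).card / L ^ A < |∑ n ∈ I q.2, w q.2 n * Q F q.1 c n|) with hbad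
  have hbadc : ∀ q ∈ TT ×ˢ N', ((bad q).card : ℝ) ≤ 2 * P / L ^ (A + E + K + 1) := by
    rintro ⟨T, s⟩ hq
    rw [mem_product, hTT, mem_filter, Fintype.mem_piFinset] at hq
    obtain ⟨⟨hT, l0, hl0⟩, hs⟩ := hq
    have hTl : ∀ l, (T l).card + 1 ≤ d := fun l => (mem_filter.1 (hT l)).2
    have hTh : ∀ l, ∀ h ∈ T l, (h : ℝ) ≤ L ^ C1 := by
      intro l h hh
      have h1 := mem_powerset.1 (mem_filter.1 (hT l)).1 hh
      rw [mem_range] at h1
      have h2 : h ≤ H := by omega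
      have h3 : (h : ℝ) ≤ H := by exact_mod_cast h2
      exact h3.trans (Nat.floor_le (by positivity))
    obtain ⟨hIc, hIn⟩ := hI s hs
    have hic : 0 < ((I s).card : ℝ) := lt_of_lt_of_le (by positivity) hIc
    have hsec := second Y F T l0 hl0 (hTl l0) (I s) (1 / L ^ U) (by positivity) (by
      intro Z hZ hZc hz
      have hzC : ∀ z ∈ Z, (z : ℝ) ≤ L ^ C := by
        intro z hzZ
        obtain ⟨n, hn, h, hh, rfl⟩ := hz z hzZ
        have h1 := hIn n hn
        have h2 := hTh l0 h hh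
        push_cast
        linarith
      have hX0 : (0 : ℝ) ≤ X := Nat.cast_nonneg _
      have hV1 : L ^ V ≤ L ^ (max C V) := pow_le_pow_right₀ hL1 (le_max_right _ _)
      have hC1' : L ^ C ≤ L ^ (max C V) := pow_le_pow_right₀ hL1 (le_max_left _ _)
      exact hE1 Z hZ hZc (fun z hzZ => (hzC z hzZ).trans hC1') (F l0)
        (fun z hzZ => (hF l0 z (hzC z hzZ)).trans (mul_le_mul_of_nonneg_left hV1 hX0)) (Y l0)
        (fun j => ⟨(div_le_div_of_nonneg_left hX0 (by positivity) hV1).trans (hY l0 j).1, (hY l0 j).2⟩)) (w s) (hw s)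
    have h1 : ((bad (T, s)).card : ℝ) * ((I s).card / L ^ A) ^ 2 ≤
        P * (((I s).card : ℝ) ^ 2 * (1 / L ^ U) + (d : ℝ) ^ 2 * (I s).card) := by
      refine le_trans ?_ hsec
      rw [← nsmul_eq_mul, ← sum_const]
      refine le_trans (sum_le_sum (g := fun c => (∑ n ∈ I s, w s n * Q F T c n) ^ 2) ?_) ?_
      · intro c hc
        have h2 := (mem_filter.1 hc).2
        simp only at h2
        rw [← sq_abs (∑ n ∈ I s, w s n * Q F T c n)]
        exact pow_le_pow_left₀ (by positivity) h2.le 2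
      · apply sum_le_sum_of_subset_of_nonneg (filter_subset _ _)
        intro _ _ _
        positivity
    have h2 : (d : ℝ) ^ 2 * (I s).card ≤ ((I s).card : ℝ) ^ 2 * (1 / L ^ U) := by
      have h3 : (d : ℝ) ^ 2 ≤ L ^ 2 := pow_le_pow_left₀ (by positivity) hLd 2
      have h4 : L ^ 2 ≤ (I s).card * (1 / L ^ U) := by
        rw [mul_one_div, le_div_iff₀ (by positivity), ← pow_add, add_comm 2 U]
        exact hIc
      calc (d : ℝ) ^ 2 * (I s).card ≤ ((I s).card * (1 / L ^ U)) * (I s).card :=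
            mul_le_mul_of_nonneg_right (h3.trans h4) hic.le
        _ = _ := by ring
    have h3 : ((bad (T, s)).card : ℝ) * ((I s).card / L ^ A) ^ 2 ≤
        (2 * P / L ^ (A + E + K + 1)) * ((I s).card / L ^ A) ^ 2 := by
      refine h1.trans ?_
      have h5 : (2 * P / L ^ (A + E + K + 1)) * ((I s).card / L ^ A) ^ 2 = P * (2 * (((I s).card : ℝ) ^ 2 * (1 / L ^ U))) := by
        have h6 : L ^ U = L ^ (A + E + K + 1) * (L ^ A) ^ 2 := by
          rw [← pow_mul, ← pow_add]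
          congr 1
          rw [hU]
          ring
        rw [h6]
        field_simp
      rw [h5]
      apply mul_le_mul_of_nonneg_left _ hP0
      linarith
    exact le_of_mul_le_mul_right h3 (by positivity)
  refine ⟨(TT ×ˢ N').biUnion bad, ?_, ?_, ?_⟩
  · intro c hc
    rw [mem_biUnion] at hc
    obtain ⟨q, -, hq⟩ := hc
    exact (mem_filter.1 hq).1
  · have h1 : (((TT ×ˢ N').biUnion bad).card : ℝ) ≤ ∑ q ∈ TT ×ˢ N', ((bad q).card : ℝ) := by
      exact_mod_cast card_biUnion_le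
    refine h1.trans ((sum_le_sum hbadc).trans ?_)
    rw [sum_const, nsmul_eq_mul, card_product]
    push_cast
    have h2 : (TT.card : ℝ) * N'.card ≤ L ^ E * L ^ K := mul_le_mul hTTc hN' (by positivity) (by positivity)
    calc (TT.card : ℝ) * N'.card * (2 * P / L ^ (A + E + K + 1)) ≤ L ^ E * L ^ K * (2 * P / L ^ (A + E + K + 1)) :=
          mul_le_mul_of_nonneg_right h2 (by positivity)
      _ = (P / L ^ A) * (2 / L) := by
          rw [show A + E + K + 1 = E + K + A + 1 by ring, pow_succ, pow_add, pow_add]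
          field_simp
      _ ≤ P / L ^ A := by
          apply mul_le_of_le_one_right (by positivity)
          rw [div_le_one hL0]
          linarith
  · intro c hc hcE T hT hTl hTh s hs
    by_contra hcon
    apply hcE
    rw [mem_biUnion]
    refine ⟨(T, s), ?_, ?_⟩
    · rw [mem_product, hTT, mem_filter, Fintype.mem_piFinset]
      refine ⟨⟨fun l => ?_, hT⟩, hs⟩
      rw [mem_filter, mem_powerset]
      refine ⟨?_, hTl l⟩
      intro h hh
      rw [mem_range]
      have := Nat.le_floor (hTh l h hh)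
      rw [← hH] at this
      omega
    · rw [hbad]
      simp only [mem_filter]
      exact ⟨hc, not_le.1 hcon⟩

end Pool.Agent.Run7.h385.CW
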